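import Pool.Agent.Helper85.PCP.Stmts

/-!
# PCP(4): module LIFT
-/

namespace PCP4

/-- code of a natural number over the binary alphabet -/
def lift_e (n : ℕ) : List Bool := List.replicate n true ++ [false]

theorem lift_e_head (a b : ℕ) (x y : List Bool)
    (h : lift_e a ++ x = lift_e b ++ y) : a = b ∧ x = y := by
  induction a generalizing b with
  | zero =>
    cases b with
    | zero => simpa [lift_e] using h
    | succ b => simp [lift_e, List.replicate_succ] at h
  | succ a ih =>
    cases b with
    | zero => simp [lift_e, List.replicate_succ] at h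
    | succ b =>
      have h' : lift_e a ++ x = lift_e b ++ y := by
        simpa [lift_e, List.replicate_succ] using h
      obtain ⟨h1, h2⟩ := ih b h'
      exact ⟨by omega, h2⟩

theorem lift_e_ne (a : ℕ) (x : List Bool) : lift_e a ++ x ≠ [] := by
  simp [lift_e]

theorem lift_inj (l l' : List ℕ) (h : l.flatMap lift_e = l'.flatMap lift_e) : l = l' := by
  induction l generalizing l' with
  | nil =>
    cases l' with
    | nil => rfl
    | cons b l' =>
      rw [List.flatMap_nil, List.flatMap_cons] at h
      exact absurd h.symm (lift_e_ne _ _)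
  | cons a l ih =>
    cases l' with
    | nil =>
      rw [List.flatMap_nil, List.flatMap_cons] at h
      exact absurd h (lift_e_ne _ _)
    | cons b l' =>
      rw [List.flatMap_cons, List.flatMap_cons] at h
      obtain ⟨h1, h2⟩ := lift_e_head _ _ _ _ h
      rw [h1, ih l' h2]

/-- index map -/
def lift_ix (n : ℕ) (i : Fin n) : Fin 4 := if h : i.1 < 4 then ⟨i.1, h⟩ else 0

/-- repeat pair `0` -/
def lift_F (n : ℕ) (I : Inst 4 ℕ) : Inst n ℕ := fun i => I (lift_ix n i)

/-- binary -/
def lift_G (n : ℕ) (I : Inst n ℕ) : Inst n Bool :=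
  fun i => ((I i).1.flatMap lift_e, (I i).2.flatMap lift_e)

theorem lift_F_pos (n : ℕ) (hn : 4 ≤ n) (I : Inst 4 ℕ) : Pos I ↔ Pos (lift_F n I) := by
  constructor
  · rintro ⟨w, hw, h⟩
    refine ⟨w.map (Fin.castLE hn), by simpa using hw, ?_⟩
    have key : ∀ i : Fin 4, lift_F n I (Fin.castLE hn i) = I i := by
      intro i
      have : lift_ix n (Fin.castLE hn i) = i := by
        simp only [lift_ix, Fin.val_castLE, i.2, dif_pos]
      simp only [lift_F, this]
    simp only [List.flatMap_map, key]
    exact h
  · rintro ⟨w, hw, h⟩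
    refine ⟨w.map (lift_ix n), by simpa using hw, ?_⟩
    simp only [List.flatMap_map]
    exact h

theorem lift_G_pos (n : ℕ) (I : Inst n ℕ) : Pos I ↔ Pos (lift_G n I) := by
  have key1 : ∀ w : List (Fin n), w.flatMap (fun i => (lift_G n I i).1) =
      (w.flatMap (fun i => (I i).1)).flatMap lift_e := by
    intro w
    rw [List.flatMap_assoc]
    rfl
  have key2 : ∀ w : List (Fin n), w.flatMap (fun i => (lift_G n I i).2) =
      (w.flatMap (fun i => (I i).2)).flatMap lift_e := by
    intro w
    rw [List.flatMap_assoc]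
    rfl
  constructor
  · rintro ⟨w, hw, h⟩
    refine ⟨w, hw, ?_⟩
    rw [key1, key2, h]
  · rintro ⟨w, hw, h⟩
    refine ⟨w, hw, ?_⟩
    rw [key1, key2] at h
    exact lift_inj _ _ h

theorem lift_F_prim (n : ℕ) : Primrec (lift_F n) := by
  rw [Primrec.fin_curry]
  have : Primrec₂ (fun (i : Fin n) (I : Inst 4 ℕ) => lift_F n I i) := by
    rw [Primrec.fin_curry₁]
    intro i
    exact Primrec.fin_app.comp Primrec.id (Primrec.const (lift_ix n i))
  exact this.swap

theorem lift_e_prim : Primrec lift_e := by
  have h1 : Primrec (fun n : ℕ => (List.range n).map (fun _ => true)) :=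
    Primrec.list_map Primrec.list_range (Primrec.const true).to₂
  have h2 : Primrec (fun n : ℕ => (List.range n).map (fun _ => true) ++ [false]) :=
    Primrec.list_append.comp h1 (Primrec.const [false])
  refine h2.of_eq fun n => ?_
  simp [lift_e]

theorem lift_G_prim (n : ℕ) : Primrec (lift_G n) := by
  rw [Primrec.fin_curry]
  have : Primrec₂ (fun (i : Fin n) (I : Inst n ℕ) => lift_G n I i) := by
    rw [Primrec.fin_curry₁]
    intro i
    have h0 : Primrec (fun I : Inst n ℕ => I i) :=
      Primrec.fin_app.comp Primrec.id (Primrec.const i)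
    have h1 : Primrec (fun I : Inst n ℕ => (I i).1.flatMap lift_e) :=
      Primrec.list_flatMap (Primrec.fst.comp h0) (lift_e_prim.comp Primrec.snd).to₂
    have h2 : Primrec (fun I : Inst n ℕ => (I i).2.flatMap lift_e) :=
      Primrec.list_flatMap (Primrec.snd.comp h0) (lift_e_prim.comp Primrec.snd).to₂
    exact h1.pair h2
  exact this.swap

theorem st_LIFT : ST_LIFT := by
  intro h n hn
  have h1 : ¬ ComputablePred (fun I : Inst n ℕ => Pos I) := by
    intro hc
    apply h
    exact ComputablePred.computable_of_manyOneReducible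
      ⟨lift_F n, (lift_F_prim n).to_comp, lift_F_pos n hn⟩ hc
  refine ⟨h1, fun hc => h1 ?_⟩
  exact ComputablePred.computable_of_manyOneReducible
    ⟨lift_G n, (lift_G_prim n).to_comp, lift_G_pos n⟩ hc

end PCP4
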